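import Pool.Agent.Y703.CQ.Stm
import Pool.Agent.Y302.CQ.LowA

/-!
Job CQ-LOW of helper703 (by helper302): the lower bound for the size of the class.
-/

set_option autoImplicit false

open scoped Classical

namespace Pool.Agent.Y302.CQ

open Finset
open Pool.Agent.Y703.CQ

/-- the class without the prime `5` -/
def cls (I : Finset ℕ) (p : ℕ) : Prop := (Sp p ∨ In I p) ∧ p ≠ 5

/-- the residues modulo `56` outside the class -/
def Res (I : Finset ℕ) : Finset ℕ := (range 56).filter fun a => Nat.Coprime a 56 ∧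
  ¬ ((a % 8 = 1 ∧ (a % 7 = 1 ∨ a % 7 = 2 ∨ a % 7 = 4)) ∨
    (a % 8 ∈ I ∧ (a % 7 = 3 ∨ a % 7 = 5 ∨ a % 7 = 6)))

theorem card_Res {I K : Finset ℕ} (hok : Ok I K) : ((Res I).card : ℝ) / 24 = 1 - dl I := by
  rcases hok.1 with h | h
  · have e : (Res {5}).card = 18 := by decide
    rw [h, e]
    unfold dl
    rw [Finset.card_singleton]
    norm_num
  · have e : (Res {3, 5}).card = 15 := by decide
    rw [h, e]
    unfold dl
    rw [Finset.card_pair (by norm_num)]
    norm_num

/-- Mertens' theorem for the primes outside the class. -/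
theorem mert (hM : S_MER) {I K : Finset ℕ} (hok : Ok I K) : ∃ C : ℝ, ∀ y : ℕ, 3 ≤ y →
    ∑ p ∈ P2 (cls I) y, (1 : ℝ) / p ≤ (1 - dl I) * Real.log (Real.log y) + C := by
  have hM' : ∀ a : ℕ, ∃ C : ℝ, Nat.Coprime a 56 → ∀ y : ℕ, 3 ≤ y →
      |∑ p ∈ (range (y + 1)).filter (fun p => p.Prime ∧ p % 56 = a % 56), (1 : ℝ) / p -
        1 / 24 * Real.log (Real.log y)| ≤ C := by
    intro a
    by_cases ha : Nat.Coprime a 56
    · obtain ⟨C, hC⟩ := hM a ha
      exact ⟨C, fun _ => hC⟩
    · exact ⟨0, fun h => absurd h ha⟩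
  choose C hC using hM'
  refine ⟨∑ p ∈ ({2, 3, 5, 7} : Finset ℕ), (1 : ℝ) / p + ∑ a ∈ Res I, C a, ?_⟩
  intro y hy
  have h1 := Finset.sum_filter_add_sum_filter_not (P2 (cls I) y)
    (fun p => p ∈ ({2, 3, 5, 7} : Finset ℕ)) (fun p => (1 : ℝ) / p)
  have h2 : ∑ p ∈ (P2 (cls I) y).filter (fun p => p ∈ ({2, 3, 5, 7} : Finset ℕ)), (1 : ℝ) / p ≤
      ∑ p ∈ ({2, 3, 5, 7} : Finset ℕ), (1 : ℝ) / p := by
    apply Finset.sum_le_sum_of_subset_of_nonneg
    · intro p hp
      exact (mem_filter.mp hp).2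
    · intro p _ _
      positivity
  have hmaps : ∀ p ∈ (P2 (cls I) y).filter (fun p => ¬ p ∈ ({2, 3, 5, 7} : Finset ℕ)),
      p % 56 ∈ Res I := by
    intro p hp
    rw [mem_filter, P2, mem_filter] at hp
    obtain ⟨⟨_, hpp, hpc⟩, hp4⟩ := hp
    simp only [mem_insert, mem_singleton, not_or] at hp4
    obtain ⟨h_2, h_3, h_5, h_7⟩ := hp4
    rw [Res, mem_filter, mem_range]
    refine ⟨Nat.mod_lt _ (by norm_num), ?_, ?_⟩
    · have h3 : Nat.Coprime p 56 := by
        rw [Nat.Prime.coprime_iff_not_dvd hpp]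
        intro h4
        rw [show (56 : ℕ) = 2 ^ 3 * 7 by norm_num, hpp.dvd_mul] at h4
        rcases h4 with h4 | h4
        · have := hpp.dvd_of_dvd_pow h4
          exact h_2 ((Nat.prime_dvd_prime_iff_eq hpp Nat.prime_two).mp this)
        · exact h_7 ((Nat.prime_dvd_prime_iff_eq hpp (by norm_num)).mp h4)
      have h4 : Nat.gcd 56 p = Nat.gcd (p % 56) 56 := Nat.gcd_rec 56 p
      unfold Nat.Coprime at h3 ⊢
      rw [← h4, Nat.gcd_comm]
      exact h3
    · rw [Nat.mod_mod_of_dvd p (by norm_num : 8 ∣ 56), Nat.mod_mod_of_dvd p (by norm_num : 7 ∣ 56)]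
      rintro (⟨ha, hb⟩ | ⟨ha, hb⟩)
      · exact hpc ⟨Or.inl ⟨hpp, ha, hb⟩, h_5⟩
      · exact hpc ⟨Or.inr ⟨hpp, h_3, ha, hb⟩, h_5⟩
  have h3 : ∑ p ∈ (P2 (cls I) y).filter (fun p => ¬ p ∈ ({2, 3, 5, 7} : Finset ℕ)), (1 : ℝ) / p ≤
      ∑ a ∈ Res I, (1 / 24 * Real.log (Real.log y) + C a) := by
    rw [← Finset.sum_fiberwise_of_maps_to hmaps]
    apply Finset.sum_le_sum
    intro a ha
    have hco : Nat.Coprime a 56 := by
      rw [Res, mem_filter] at ha
      exact ha.2.1
    have ha56 : a % 56 = a := by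
      rw [Res, mem_filter, mem_range] at ha
      exact Nat.mod_eq_of_lt ha.1
    have h4 := (abs_le.mp (hC a hco y hy)).2
    have h5 : ∑ p ∈ ((P2 (cls I) y).filter (fun p => ¬ p ∈ ({2, 3, 5, 7} : Finset ℕ))).filter
        (fun p => p % 56 = a), (1 : ℝ) / p ≤
        ∑ p ∈ (range (y + 1)).filter (fun p => p.Prime ∧ p % 56 = a % 56), (1 : ℝ) / p := by
      apply Finset.sum_le_sum_of_subset_of_nonneg
      · intro p hp
        rw [mem_filter, mem_filter, P2, mem_filter] at hp
        rw [mem_filter, ha56]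
        exact ⟨hp.1.1.1, hp.1.1.2.1, hp.2⟩
      · intro p _ _
        positivity
    linarith
  rw [← h1]
  have h4 : ∑ a ∈ Res I, (1 / 24 * Real.log (Real.log y) + C a) =
      (1 - dl I) * Real.log (Real.log y) + ∑ a ∈ Res I, C a := by
    rw [Finset.sum_add_distrib, Finset.sum_const, nsmul_eq_mul, ← card_Res hok]
    ring
  rw [h4] at h3
  linarith

theorem five_in {I K : Finset ℕ} (hok : Ok I K) : In I 5 := by
  refine ⟨by norm_num, by norm_num, ?_, by norm_num⟩
  rcases hok.1 with h | h <;> rw [h] <;> decide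

/-- the set with an even number of primes `5` modulo `8` -/
noncomputable def ev (T : Finset ℕ) : Finset ℕ :=
  if (T.filter fun p => p % 8 = 5).card % 2 = 0 then T else insert 5 T

/-- the class of the additional prime -/
noncomputable def aa (K T : Finset ℕ) : ℕ :=
  if (T.filter fun p => p % 8 = 3).card % 2 ∈ K then 1 else 3

theorem aa_or (K T : Finset ℕ) : aa K T = 1 ∨ aa K T = 3 := by
  unfold aa
  split_ifs <;> simp

theorem mem_M1 {I : Finset ℕ} {y : ℕ} {S : Finset ℕ} (h : S ∈ M1 (cls I) y) :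
    (∀ p ∈ S, p.Prime ∧ cls I p ∧ p ≤ y) ∧ ∏ p ∈ S, p ≤ y := by
  rw [M1, mem_filter, mem_powerset] at h
  refine ⟨fun p hp => ?_, h.2⟩
  have := h.1 hp
  rw [mem_filter, mem_range] at this
  exact ⟨this.2.1, this.2.2, by omega⟩

structure EV (I : Finset ℕ) (y : ℕ) (T : Finset ℕ) : Prop where
  cl : ∀ p ∈ ev T, (Sp p ∨ In I p) ∧ p ≤ y
  c5 : ((ev T).filter fun p => p % 8 = 5).card % 2 = 0
  c3 : ((ev T).filter fun p => p % 8 = 3).card = (T.filter fun p => p % 8 = 3).card
  er : (ev T).erase 5 = T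
  pr : ∏ p ∈ ev T, p ≤ 5 * ∏ p ∈ T, p
  po : 0 < ∏ p ∈ ev T, p

theorem ev_facts {I K : Finset ℕ} (hok : Ok I K) {y : ℕ} (hy : 5 ≤ y) {T : Finset ℕ}
    (hT : T ∈ M1 (cls I) y) : EV I y T := by
  obtain ⟨h1, h2⟩ := mem_M1 hT
  have h5 : 5 ∉ T := fun h => (h1 5 h).2.1.2 rfl
  have hpos : 0 < ∏ p ∈ T, p := Finset.prod_pos fun p hp => (h1 p hp).1.pos
  by_cases h : (T.filter fun p => p % 8 = 5).card % 2 = 0
  · have e : ev T = T := if_pos h
    refine ⟨?_, ?_, ?_, ?_, ?_, ?_⟩
    · rw [e]
      intro p hp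
      exact ⟨(h1 p hp).2.1.1, (h1 p hp).2.2⟩
    · rw [e]; exact h
    · rw [e]
    · rw [e]; exact Finset.erase_eq_of_notMem h5
    · rw [e]; omega
    · rw [e]; exact hpos
  · have e : ev T = insert 5 T := if_neg h
    refine ⟨?_, ?_, ?_, ?_, ?_, ?_⟩
    · rw [e]
      intro p hp
      rcases mem_insert.mp hp with rfl | hp
      · exact ⟨Or.inr (five_in hok), hy⟩
      · exact ⟨(h1 p hp).2.1.1, (h1 p hp).2.2⟩
    · rw [e, Finset.filter_insert, if_pos (by norm_num), Finset.card_insert_of_notMem]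
      · omega
      · intro h3
        exact h5 (mem_filter.mp h3).1
    · rw [e, Finset.filter_insert, if_neg (by norm_num)]
    · rw [e]; exact Finset.erase_insert h5
    · rw [e, Finset.prod_insert h5]
    · rw [e, Finset.prod_insert h5]; omega

/-- the pairs -/
noncomputable def DD (I K : Finset ℕ) (X y : ℕ) : Finset (Σ _ : Finset ℕ, ℕ) :=
  (M1 (cls I) y).sigma fun T => (range (X / (∏ p ∈ ev T, p) + 1)).filter
    fun r => y < r ∧ r.Prime ∧ r % 56 = aa K T

theorem card_DD_le {I K : Finset ℕ} (hok : Ok I K) (X y : ℕ) (hy : 5 ≤ y) :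
    (DD I K X y).card ≤ (SS I K X).card := by
  refine Finset.card_le_card_of_injOn (fun t => insert t.2 (ev t.1)) ?_ ?_
  · rintro ⟨T, r⟩ ht
    rw [mem_coe, DD, mem_sigma, mem_filter, mem_range] at ht
    obtain ⟨hT, hr, hry, hrp, hr56⟩ := ht
    obtain ⟨h1, h2⟩ := mem_M1 hT
    obtain ⟨k1, k2, k3, k4, k5, k6⟩ := ev_facts hok hy hT
    simp only at hr hry hrp hr56
    have hrT : r ∉ ev T := fun h => by have := (k1 r h).2; omega
    have hprod : r * ∏ p ∈ ev T, p ≤ X := by
      have : r ≤ X / ∏ p ∈ ev T, p := by omega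
      exact (Nat.le_div_iff_mul_le k6).mp this
    -- the classes
    have hr5 : r % 8 ≠ 5 := by
      rcases aa_or K T with h | h <;> rw [h] at hr56 <;> omega
    have hcl : (Sp r ∨ In I r) ∧
        ((insert r (ev T)).filter fun p => p % 8 = 3).card % 2 ∈ K := by
      by_cases hK : (T.filter fun p => p % 8 = 3).card % 2 ∈ K
      · have ha : aa K T = 1 := if_pos hK
        rw [ha] at hr56
        refine ⟨Or.inl ⟨hrp, by omega, Or.inl (by omega)⟩, ?_⟩
        rw [Finset.filter_insert, if_neg (by omega), k3]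
        exact hK
      · have ha : aa K T = 3 := if_neg hK
        rw [ha] at hr56
        have h3I : 3 ∈ I ∧ ((T.filter fun p => p % 8 = 3).card + 1) % 2 ∈ K := by
          rcases Nat.mod_two_eq_zero_or_one (T.filter fun p => p % 8 = 3).card with h | h
          · rw [h] at hK
            obtain ⟨ha1, ha2⟩ := hok.2.resolve_left hK
            refine ⟨ha1, ?_⟩
            have : ((T.filter fun p => p % 8 = 3).card + 1) % 2 = 1 := by omega
            rw [this]
            exact ha2
          · rw [h] at hK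
            have h0 : 0 ∈ K := by
              rcases hok.2 with h' | h'
              · exact h'
              · exact absurd h'.2 hK
            refine ⟨?_, ?_⟩
            · have hne : (T.filter fun p => p % 8 = 3).Nonempty := by
                rw [← Finset.card_pos]
                omega
              obtain ⟨p, hp⟩ := hne
              rw [mem_filter] at hp
              rcases (h1 p hp.1).2.1.1 with h' | h'
              · have := h'.2.1
                omega
              · have := h'.2.2.1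
                rwa [hp.2] at this
            · have : ((T.filter fun p => p % 8 = 3).card + 1) % 2 = 0 := by omega
              rw [this]
              exact h0
        refine ⟨Or.inr ⟨hrp, by omega, ?_, Or.inl (by omega)⟩, ?_⟩
        · have : r % 8 = 3 := by omega
          rw [this]
          exact h3I.1
        · rw [Finset.filter_insert, if_pos (by omega), Finset.card_insert_of_notMem, k3]
          · exact h3I.2
          · intro h
            exact hrT (mem_filter.mp h).1
    have hprod' : ∏ p ∈ insert r (ev T), p ≤ X := by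
      rw [Finset.prod_insert hrT]
      exact hprod
    have hall : ∀ p ∈ insert r (ev T), Sp p ∨ In I p := by
      intro p hp
      rcases mem_insert.mp hp with rfl | hp
      · exact hcl.1
      · exact (k1 p hp).1
    have hprime : ∀ p ∈ insert r (ev T), p.Prime := by
      intro p hp
      rcases hall p hp with h | h
      · exact h.1
      · exact h.1
    rw [mem_coe, SS, mem_filter, mem_powerset]
    refine ⟨?_, ⟨hall, ?_, hcl.2⟩, hprod'⟩
    · intro p hp
      rw [mem_range]
      have h3 : p ∣ ∏ q ∈ insert r (ev T), q := Finset.dvd_prod_of_mem _ hp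
      have h4 : 0 < ∏ q ∈ insert r (ev T), q := Finset.prod_pos fun q hq => (hprime q hq).pos
      have := Nat.le_of_dvd h4 h3
      omega
    · rw [Finset.filter_insert, if_neg hr5]
      exact k2
  · rintro ⟨T, r⟩ ht ⟨T', r'⟩ ht' he
    rw [mem_coe, DD, mem_sigma, mem_filter, mem_range] at ht ht'
    obtain ⟨hT, hr, hry, hrp, hr56⟩ := ht
    obtain ⟨hT', hr', hry', hrp', hr56'⟩ := ht'
    obtain ⟨k1, k2, k3, k4, k5, k6⟩ := ev_facts hok hy hT
    obtain ⟨k1', k2', k3', k4', k5', k6'⟩ := ev_facts hok hy hT'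
    simp only at hr hry hrp hr56 hr' hry' hrp' hr56' he k1 k4 k1' k4'
    have hrr : r = r' := by
      have : r ∈ insert r' (ev T') := by rw [← he]; exact mem_insert_self _ _
      rw [mem_insert] at this
      rcases this with h | h
      · exact h
      · have := (k1' r h).2
        omega
    subst hrr
    have hTT : ev T = ev T' := by
      have e1 : ∀ (S : Finset ℕ), (∀ p ∈ S, p ≤ y) →
          (insert r S).filter (fun p => p ≤ y) = S := by
        intro S hS
        ext p
        simp only [mem_filter, mem_insert]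
        constructor
        · rintro ⟨rfl | h, h3⟩
          · omega
          · exact h
        · intro h; exact ⟨Or.inr h, hS p h⟩
      rw [← e1 (ev T) fun p hp => (k1 p hp).2, he, e1 (ev T') fun p hp => (k1' p hp).2]
    have hTT2 : T = T' := by rw [← k4, ← k4', hTT]
    subst hTT2
    rfl

theorem exists_root (X : ℕ) : ∃ y : ℕ, y ^ 8 ≤ X ∧ X < (y + 1) ^ 8 := by
  refine ⟨Nat.sqrt (Nat.sqrt (Nat.sqrt X)), ?_, ?_⟩
  · have h1 := Nat.sqrt_le' X
    have h2 := Nat.sqrt_le' (Nat.sqrt X)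
    have h3 := Nat.sqrt_le' (Nat.sqrt (Nat.sqrt X))
    calc (Nat.sqrt (Nat.sqrt (Nat.sqrt X))) ^ 8 =
        (((Nat.sqrt (Nat.sqrt (Nat.sqrt X))) ^ 2) ^ 2) ^ 2 := by ring
      _ ≤ ((Nat.sqrt (Nat.sqrt X)) ^ 2) ^ 2 :=
          Nat.pow_le_pow_left (Nat.pow_le_pow_left h3 2) 2
      _ ≤ (Nat.sqrt X) ^ 2 := Nat.pow_le_pow_left h2 2
      _ ≤ X := h1
  · have h1 := Nat.lt_succ_sqrt' X
    have h2 := Nat.lt_succ_sqrt' (Nat.sqrt X)
    have h3 := Nat.lt_succ_sqrt' (Nat.sqrt (Nat.sqrt X))
    calc X < (Nat.sqrt X + 1) ^ 2 := h1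
      _ ≤ ((Nat.sqrt (Nat.sqrt X) + 1) ^ 2) ^ 2 := Nat.pow_le_pow_left h2 2
      _ ≤ (((Nat.sqrt (Nat.sqrt (Nat.sqrt X)) + 1) ^ 2) ^ 2) ^ 2 :=
          Nat.pow_le_pow_left (Nat.pow_le_pow_left h3 2) 2
      _ = _ := by ring

theorem log_le_two_sqrt {x : ℝ} (hx : 0 < x) : Real.log x ≤ 2 * Real.sqrt x := by
  have h1 : 0 < Real.sqrt x := Real.sqrt_pos.mpr hx
  have h2 : Real.log x = 2 * Real.log (Real.sqrt x) := by
    rw [Real.log_sqrt hx.le]; ring
  rw [h2]
  have := Real.log_le_sub_one_of_pos h1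
  linarith

theorem t_LOW : Pool.Agent.Y703.CQ.S_LOW := by
  intro hM hche I K hok
  obtain ⟨C, hC⟩ := mert hM hok
  obtain ⟨c, Y₀, hc, hche⟩ := hche
  obtain ⟨y₀, hy₀⟩ : ∃ y₀ : ℕ, y₀ = max (max 5 Y₀) ⌈8 / c⌉₊ := ⟨_, rfl⟩
  refine ⟨c / 20 * (1 / 2 * Real.exp (-C)) / 16, y₀ ^ 8, by positivity, ?_⟩
  intro X hX
  obtain ⟨y, hy1, hy2⟩ := exists_root X
  have hyy : y₀ ≤ y := by
    have : y₀ ^ 8 < (y + 1) ^ 8 := lt_of_le_of_lt hX hy2
    have := lt_of_pow_lt_pow_left₀ 8 (Nat.zero_le _) this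
    omega
  have hy5 : 5 ≤ y := by
    have : 5 ≤ y₀ := by rw [hy₀]; exact (le_max_left _ _).trans (le_max_left _ _)
    omega
  have hyY : Y₀ ≤ y := by
    have : Y₀ ≤ y₀ := by rw [hy₀]; exact (le_max_right _ _).trans (le_max_left _ _)
    omega
  have hyc : 8 / c ≤ (y : ℝ) := by
    have h1 : 8 / c ≤ (⌈8 / c⌉₊ : ℝ) := Nat.le_ceil _
    have h2 : ⌈8 / c⌉₊ ≤ y := by
      have : ⌈8 / c⌉₊ ≤ y₀ := by rw [hy₀]; exact le_max_right _ _
      omega
    exact h1.trans (by exact_mod_cast h2)
  have hyR : (5 : ℝ) ≤ y := by exact_mod_cast hy5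
  have hyX : y < X := by
    have : y < y ^ 8 := by
      calc y = y ^ 1 := (pow_one y).symm
        _ < y ^ 8 := Nat.pow_lt_pow_right (by omega) (by norm_num)
    omega
  have hX1 : (1 : ℝ) < X := by exact_mod_cast (show 1 < X by omega)
  have hlogy : 0 < Real.log y := Real.log_pos (by linarith)
  have hlogX : 0 < Real.log X := Real.log_pos hX1
  have hlog16 : Real.log X ≤ 16 * Real.log y := by
    have h1 : X ≤ y ^ 16 := by
      have h2 : y + 1 ≤ y ^ 2 := by nlinarith
      calc X ≤ (y + 1) ^ 8 := hy2.le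
        _ ≤ (y ^ 2) ^ 8 := Nat.pow_le_pow_left h2 8
        _ = y ^ 16 := by ring
    have : Real.log X ≤ Real.log ((y : ℝ) ^ 16) := by
      apply Real.log_le_log (by linarith)
      exact_mod_cast h1
    rwa [Real.log_pow] at this
  -- the sum
  have hsum : ∑ T ∈ M1 (cls I) y, c / 20 * (X / Real.log X) *
      ((1 : ℝ) / ((∏ p ∈ T, p : ℕ) : ℝ)) ≤ ((DD I K X y).card : ℝ) := by
    rw [DD, Finset.card_sigma, Nat.cast_sum]
    refine Finset.sum_le_sum fun T hT => ?_
    obtain ⟨h1, h2⟩ := mem_M1 hT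
    obtain ⟨k1, k2, k3, k4, k5, k6⟩ := ev_facts hok hy5 hT
    obtain ⟨m, hm⟩ : ∃ m, m = ∏ p ∈ ev T, p := ⟨_, rfl⟩
    obtain ⟨n, hn⟩ : ∃ n, n = ∏ p ∈ T, p := ⟨_, rfl⟩
    rw [← hm] at k5 k6
    rw [← hn] at h2 k5
    rw [← hm, ← hn]
    have hn0 : 0 < n := by
      rw [hn]; exact Finset.prod_pos fun p hp => (h1 p hp).1.pos
    obtain ⟨Y, hYdef⟩ : ∃ Y, Y = X / m := ⟨_, rfl⟩
    have hYy : y ^ 6 ≤ Y := by
      rw [hYdef, Nat.le_div_iff_mul_le k6]
      calc y ^ 6 * m ≤ y ^ 6 * y ^ 2 := by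
            apply Nat.mul_le_mul_left
            nlinarith
        _ = y ^ 8 := by ring
        _ ≤ X := hy1
    have hy6 : y ≤ y ^ 6 := Nat.le_self_pow (by norm_num) y
    have hY0 : Y₀ ≤ Y := by omega
    have hYX : Y ≤ X := by rw [hYdef]; exact Nat.div_le_self _ _
    have hY1 : (1 : ℝ) < (Y : ℝ) := by exact_mod_cast (show 1 < Y by omega)
    have hlY : 0 < Real.log (Y : ℝ) := Real.log_pos hY1
    have hlYX : Real.log (Y : ℝ) ≤ Real.log X :=
      Real.log_le_log (by linarith) (by exact_mod_cast hYX)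
    have haco : Nat.Coprime (aa K T) 56 := by
      rcases aa_or K T with h | h <;> rw [h] <;> decide
    have haa : aa K T % 56 = aa K T := by
      rcases aa_or K T with h | h <;> rw [h]
    have h3 := hche Y hY0 (aa K T) haco
    rw [haa] at h3
    -- discard the small primes
    have h4 : ((range (Y + 1)).filter fun p => p.Prime ∧ p % 56 = aa K T).card ≤
        ((range (Y + 1)).filter fun r => y < r ∧ r.Prime ∧ r % 56 = aa K T).card + (y + 1) := by
      have h5 : ((range (Y + 1)).filter fun p => p.Prime ∧ p % 56 = aa K T) ⊆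
          ((range (Y + 1)).filter fun r => y < r ∧ r.Prime ∧ r % 56 = aa K T) ∪
            range (y + 1) := by
        intro p hp
        rw [mem_filter] at hp
        rw [mem_union, mem_filter, mem_range]
        by_cases h : y < p
        · exact Or.inl ⟨mem_range.mp hp.1, h, hp.2⟩
        · right
          rw [mem_range]
          omega
      refine (Finset.card_le_card h5).trans ((Finset.card_union_le _ _).trans ?_)
      rw [Finset.card_range]
    have h4' : (((range (Y + 1)).filter fun p => p.Prime ∧ p % 56 = aa K T).card : ℝ) ≤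
        (((range (Y + 1)).filter fun r => y < r ∧ r.Prime ∧ r % 56 = aa K T).card : ℝ) +
          ((y : ℝ) + 1) := by
      exact_mod_cast h4
    have h6 : (y : ℝ) + 1 ≤ c / 2 * (Y / Real.log Y) := by
      have hs0 : 0 < Real.sqrt (Y : ℝ) := Real.sqrt_pos.mpr (by linarith)
      have hs1 : (y : ℝ) ^ 3 ≤ Real.sqrt (Y : ℝ) := by
        apply Real.le_sqrt_of_sq_le
        have : ((y : ℝ) ^ 3) ^ 2 = (y : ℝ) ^ 6 := by ring
        rw [this]
        exact_mod_cast hYy
      have hs2 : Real.sqrt (Y : ℝ) / 2 ≤ Y / Real.log Y := by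
        rw [le_div_iff₀ hlY]
        have h7 := log_le_two_sqrt (show (0 : ℝ) < Y by linarith)
        calc Real.sqrt (Y : ℝ) / 2 * Real.log Y ≤ Real.sqrt (Y : ℝ) / 2 * (2 * Real.sqrt Y) :=
              mul_le_mul_of_nonneg_left h7 (by positivity)
          _ = Real.sqrt (Y : ℝ) * Real.sqrt Y := by ring
          _ = Y := Real.mul_self_sqrt (by linarith)
      have hs3 : 8 ≤ c * (y : ℝ) := by
        rw [div_le_iff₀ hc] at hyc
        linarith
      calc (y : ℝ) + 1 ≤ 8 / 4 * (y * 1) := by linarith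
        _ ≤ c * y / 4 * (y * y) := by
            apply mul_le_mul _ _ (by positivity) (by positivity)
            · exact div_le_div_of_nonneg_right hs3 (by norm_num)
            · apply mul_le_mul_of_nonneg_left _ (by positivity)
              linarith
        _ = c / 2 * ((y : ℝ) ^ 3 / 2) := by ring
        _ ≤ c / 2 * (Real.sqrt Y / 2) := by
            apply mul_le_mul_of_nonneg_left _ (by positivity)
            exact div_le_div_of_nonneg_right hs1 (by norm_num)
        _ ≤ c / 2 * (Y / Real.log Y) := mul_le_mul_of_nonneg_left hs2 (by positivity)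
    have h7 : c / 2 * (Y / Real.log Y) ≤
        (((range (Y + 1)).filter fun r => y < r ∧ r.Prime ∧ r % 56 = aa K T).card : ℝ) := by
      have h8 : c * Y / Real.log Y = c / 2 * (Y / Real.log Y) + c / 2 * (Y / Real.log Y) := by ring
      rw [h8] at h3
      linarith
    rw [← hYdef]
    refine le_trans ?_ h7
    have hhalf : (X : ℝ) / (2 * m) ≤ (Y : ℝ) := by
      have h9 : X < m * Y + m := by
        rw [hYdef]
        have := Nat.div_add_mod X m
        have := Nat.mod_lt X k6
        omega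
      have h10 : (X : ℝ) < m * (Y : ℝ) + m := by exact_mod_cast h9
      have hm' : (0 : ℝ) < m := by exact_mod_cast k6
      rw [div_le_iff₀ (by positivity)]
      nlinarith
    have hm5 : (m : ℝ) ≤ 5 * n := by exact_mod_cast k5
    have hm' : (0 : ℝ) < m := by exact_mod_cast k6
    have hn' : (0 : ℝ) < n := by exact_mod_cast hn0
    have hX10 : (X : ℝ) / (10 * n) ≤ (X : ℝ) / (2 * m) := by
      apply div_le_div_of_nonneg_left (by positivity) (by positivity)
      linarith
    calc c / 20 * (X / Real.log X) * ((1 : ℝ) / (n : ℝ)) =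
        c / 2 * (((X : ℝ) / (10 * n)) / Real.log X) := by
          field_simp
          ring
      _ ≤ c / 2 * ((Y : ℝ) / Real.log X) := by
          apply mul_le_mul_of_nonneg_left _ (by positivity)
          apply div_le_div_of_nonneg_right _ hlogX.le
          exact hX10.trans hhalf
      _ ≤ c / 2 * ((Y : ℝ) / Real.log Y) := by
          apply mul_le_mul_of_nonneg_left _ (by positivity)
          apply div_le_div_of_nonneg_left (by positivity) hlY hlYX
  rw [← Finset.mul_sum] at hsum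
  have hG := G1_lower (cls I) (1 - dl I) C y (by omega) (hC y (by omega))
  have hdl : 1 - (1 - dl I) = dl I := by ring
  rw [hdl] at hG
  have hcard : ((DD I K X y).card : ℝ) ≤ ((SS I K X).card : ℝ) := by
    exact_mod_cast card_DD_le hok X y hy5
  refine le_trans ?_ (hsum.trans hcard)
  have h6 : 0 ≤ c / 20 * (X / Real.log X) := by positivity
  refine le_trans ?_ (mul_le_mul_of_nonneg_left hG h6)
  have hdl0 : 0 ≤ dl I := by unfold dl; positivity
  have hdl1 : dl I ≤ 1 := by
    rcases hok.1 with h | h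
    · rw [h]
      unfold dl
      rw [Finset.card_singleton]
      norm_num
    · rw [h]
      unfold dl
      rw [Finset.card_pair (by norm_num)]
      norm_num
  have h7 : (Real.log X) ^ (dl I) ≤ 16 * (Real.log y) ^ (dl I) := by
    have h8 : (Real.log X) ^ (dl I) ≤ (16 * Real.log y) ^ (dl I) :=
      Real.rpow_le_rpow hlogX.le hlog16 hdl0
    rw [Real.mul_rpow (by norm_num) hlogy.le] at h8
    refine h8.trans ?_
    apply mul_le_mul_of_nonneg_right _ (by positivity)
    calc (16 : ℝ) ^ (dl I) ≤ 16 ^ (1 : ℝ) := Real.rpow_le_rpow_of_exponent_le (by norm_num) hdl1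
      _ = 16 := Real.rpow_one _
  have h10 : (Real.log X) ^ (-1 + dl I : ℝ) = (Real.log X) ^ (dl I) / Real.log X := by
    rw [Real.rpow_add hlogX, Real.rpow_neg_one]
    ring
  rw [h10]
  have hee : 0 < Real.exp (-C) := Real.exp_pos _
  calc c / 20 * (1 / 2 * Real.exp (-C)) / 16 * X * ((Real.log X) ^ (dl I) / Real.log X)
      = c / 20 * (X / Real.log X) * (1 / 2 * Real.exp (-C) / 16 * (Real.log X) ^ (dl I)) := by
        ring
    _ ≤ c / 20 * (X / Real.log X) *
        (1 / 2 * Real.exp (-C) / 16 * (16 * (Real.log y) ^ (dl I))) := by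
        apply mul_le_mul_of_nonneg_left _ h6
        apply mul_le_mul_of_nonneg_left h7 (by positivity)
    _ = c / 20 * (X / Real.log X) * (1 / 2 * Real.exp (-C) * (Real.log y) ^ (dl I)) := by ring

end Pool.Agent.Y302.CQ
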